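import Pool.Agent.Lib.MP_9c9d6b_nt.Digits

open Polynomial Pool.Agent.Lib.MP_9c9d6b_nt

/-- A degree 6 Salem number with preperiod length 1 whose co-factor is not reciprocal. -/
theorem Pool.Agent.Results.MP_9c9d6b_nt.Counterexample.result :
    ∃ β : ℝ, IsSalem β ∧
      minpoly ℤ β = X ^ 6 - 5 * X ^ 5 - 3 * X ^ 4 + 2 * X ^ 3 - 3 * X ^ 2 - 5 * X + 1 ∧
      (minpoly ℤ β).natDegree = 6 ∧ IsPreperiodLength β 1 ∧ IsPeriodLength β 32 ∧
      ∃ Q : ℤ[X], companion β 1 32 = minpoly ℤ β * Q ∧ Q.reverse ≠ Q :=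
  main
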